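import Pool.Agent.Q131.Disk
import Pool.Agent.Q131.Absorb

/-!
# MP_af08fa_gt: free piecewise-isometry groups on the lower edge of the parameter region

Everything is stated in the Poincaré disk, with the conventions of the problem file.
-/

namespace Pool.Agent.Results.MP_af08fa_gt.LowerEdgeGood

noncomputable section

/-- hyperbolic distance between two points of the unit disk -/
def hypDist (z w : ℂ) : ℝ :=
  Real.arcosh (1 + 2 * ‖z - w‖ ^ 2 / ((1 - ‖z‖ ^ 2) * (1 - ‖w‖ ^ 2)))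

/-- hyperbolic distance from `z` to the imaginary axis -/
def distImag (z : ℂ) : ℝ := sInf {d | ∃ t : ℝ, |t| < 1 ∧ d = hypDist z ((t : ℂ) * Complex.I)}

/-- hyperbolic distance from `z` to the real axis -/
def distReal (z : ℂ) : ℝ := sInf {d | ∃ t : ℝ, |t| < 1 ∧ d = hypDist z (t : ℂ)}

/-- signed hyperbolic distance to the imaginary axis, negative when `Re z < 0` -/
def delta (z : ℂ) : ℝ := if z.re < 0 then - distImag z else distImag z

/-- the isometry `τ_a(z) = (z + a) / (conj a * z + 1)` -/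
def tau (a z : ℂ) : ℂ := (z + a) / ((starRingEnd ℂ) a * z + 1)

/-- `b_α = (1/2) arccosh (1 / (1 - 2 α ^ 2))` -/
def bb (α : ℝ) : ℝ := 1 / 2 * Real.arcosh (1 / (1 - 2 * α ^ 2))

/-- the value of `β` on the lower boundary of the parameter region -/
def betaL (α : ℝ) : ℝ := α * (1 - Real.sqrt (1 - α ^ 2)) / (Real.sqrt (1 - α ^ 2) - α ^ 2)

/-- The barrel `Q_α`: points of the disk at distance at most `b_α` from both axes; the right
arc (`δ = b_α`) and the top arc (distance `b_α` from the real axis, above it) are excluded. -/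
def barrel (α : ℝ) : Set ℂ :=
  {z | ‖z‖ < 1 ∧ distReal z ≤ bb α ∧ distImag z ≤ bb α ∧ ¬ (delta z = bb α) ∧
    ¬ (0 < z.im ∧ distReal z = bb α)}

/-- `H(c, s) = τ_c ({z ∈ 𝔻 : δ(z) < s})` -/
def HH (c s : ℝ) : Set ℂ := tau (c : ℂ) '' {z | ‖z‖ < 1 ∧ delta z < s}

/-- the quadrangle piece -/
def quadrangle (α β : ℝ) : Set ℂ := barrel α ∩ HH (-β) (bb α)

/-- the lens piece -/
def lens (α : ℝ) : Set ℂ := barrel α \ HH α (- bb α)

open Classical in
/-- the map `φ` -/
def phi (α β : ℝ) (z : ℂ) : ℂ :=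
  if z ∈ quadrangle α β then tau (β : ℂ) z
  else if z ∈ lens α then tau ((-α : ℝ) : ℂ) z
  else tau ((-α : ℝ) : ℂ) (tau (β : ℂ) z)

/-- the reflection `σ(z) = i * conj z` -/
def sigma (z : ℂ) : ℂ := Complex.I * (starRingEnd ℂ) z

/-- `ψ = σ φ σ` -/
def psi (α β : ℝ) (z : ℂ) : ℂ := sigma (phi α β (sigma z))

/-- The three properties of the question: `φ, ψ` are bijections of `Q_α` (given by the
permutations `Φ, Ψ`), they freely generate a free group of rank two, and each non-identity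
element of the group they generate has only finitely many fixed points.  (The first clause
records that the quadrangle and the lens are disjoint, so `φ` is unambiguous.) -/
def Good (α : ℝ) : Prop :=
  Disjoint (quadrangle α (betaL α)) (lens α) ∧
  ∃ Φ Ψ : Equiv.Perm (barrel α),
    (∀ z : barrel α, ((Φ z : barrel α) : ℂ) = phi α (betaL α) z) ∧
    (∀ z : barrel α, ((Ψ z : barrel α) : ℂ) = psi α (betaL α) z) ∧
    Function.Injective (FreeGroup.lift ![Φ, Ψ] : FreeGroup (Fin 2) →* Equiv.Perm (barrel α)) ∧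
    ∀ g ∈ Subgroup.closure {Φ, Ψ}, g ≠ 1 → {z : barrel α | g z = z}.Finite

end

open Pool.Agent.Q131.PP Pool.Agent.Q131.Model Pool.Agent.Q131.Exch Pool.Agent.Q131.Params
open Pool.Agent.Q131.Disk Pool.Agent.Q131.Absorb

noncomputable section

lemma hypDist_eq (z w : ℂ) : hypDist z w = hdist z w := rfl
lemma distImag_eq (z : ℂ) : distImag z = distIm z := rfl
lemma distReal_eq (z : ℂ) : distReal z = distRe z := rfl
lemma delta_eq (z : ℂ) : delta z = dl z := rfl
lemma tau_eq (a z : ℂ) : tau a z = Pool.Agent.Q131.Disk.tau a z := rfl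
lemma sigma_eq (z : ℂ) : sigma z = sg' z := rfl

section params

variable {α : ℝ} (h0 : 0 < α) (h1 : α < Real.sqrt (2 * Real.sqrt 3 - 3))

include h0 h1

lemma al_sq : α ^ 2 < 2 * Real.sqrt 3 - 3 := by
  have h3 : 0 ≤ 2 * Real.sqrt 3 - 3 := by
    have := Real.sq_sqrt (show (0:ℝ) ≤ 3 by norm_num)
    nlinarith [Real.sqrt_nonneg 3]
  have := Real.sq_sqrt h3
  nlinarith [Real.sqrt_nonneg (2 * Real.sqrt 3 - 3)]

lemma al_half : α ^ 2 < 1 / 2 := by
  have h := al_sq h0 h1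
  have h3 := Real.sq_sqrt (show (0:ℝ) ≤ 3 by norm_num)
  have h4 := Real.sqrt_nonneg 3
  nlinarith

lemma one_lt_arg : 1 < 1 / (1 - 2 * α ^ 2) := by
  have h := al_half h0 h1
  rw [lt_div_iff₀ (by linarith)]
  nlinarith

lemma bb_pos : 0 < bb α := by
  unfold bb
  have := Real.arcosh_pos (one_lt_arg h0 h1)
  linarith

lemma cosh_two_bb : Real.cosh (2 * bb α) = 1 / (1 - 2 * α ^ 2) := by
  have h := (one_lt_arg h0 h1).le
  unfold bb
  rw [← mul_assoc, mul_one_div_cancel (by norm_num), one_mul, Real.cosh_arcosh h]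

lemma cosh_bb_sq : Real.cosh (bb α) ^ 2 = (1 - α ^ 2) / (1 - 2 * α ^ 2) := by
  have h := al_half h0 h1
  have h2 := cosh_two_bb h0 h1
  rw [Real.cosh_two_mul] at h2
  have h3 := Real.cosh_sq_sub_sinh_sq (bb α)
  have h4 : (1 - 2 * α ^ 2) ≠ 0 := by linarith
  field_simp at h2 ⊢
  nlinarith

lemma sinh_bb_sq : Real.sinh (bb α) ^ 2 = α ^ 2 / (1 - 2 * α ^ 2) := by
  have h := al_half h0 h1
  have h2 := cosh_bb_sq h0 h1
  have h3 := Real.cosh_sq_sub_sinh_sq (bb α)
  have h4 : (1 - 2 * α ^ 2) ≠ 0 := by linarith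
  have h5 : Real.sinh (bb α) ^ 2 = Real.cosh (bb α) ^ 2 - 1 := by linarith
  rw [h5, h2, sub_eq_iff_eq_add, div_eq_iff h4, add_mul, div_mul_cancel₀ _ h4]
  ring

lemma sqrt_al_pos : 0 < Real.sqrt (1 - α ^ 2) := by
  have h := al_half h0 h1
  exact Real.sqrt_pos.mpr (by linarith)

lemma sqrt_al_sq : Real.sqrt (1 - α ^ 2) ^ 2 = 1 - α ^ 2 := by
  have h := al_half h0 h1
  exact Real.sq_sqrt (by linarith)

lemma tanh_bb : Real.tanh (bb α) = α / Real.sqrt (1 - α ^ 2) := by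
  have h := al_half h0 h1
  have hb := bb_pos h0 h1
  have hs := sqrt_al_pos h0 h1
  have hs2 := sqrt_al_sq h0 h1
  have hc := Real.cosh_pos (bb α)
  have hsb : 0 < Real.sinh (bb α) := Real.sinh_pos_iff.mpr hb
  have h2 := cosh_bb_sq h0 h1
  have h3 := sinh_bb_sq h0 h1
  have p1 : 0 < Real.tanh (bb α) := by rw [Real.tanh_eq_sinh_div_cosh]; positivity
  have p2 : 0 < α / Real.sqrt (1 - α ^ 2) := by positivity
  have : Real.tanh (bb α) ^ 2 = (α / Real.sqrt (1 - α ^ 2)) ^ 2 := by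
    rw [Real.tanh_eq_sinh_div_cosh, div_pow, div_pow, h2, h3, hs2]
    have h4 : (1 - 2 * α ^ 2) ≠ 0 := by linarith
    have h5 : (1 - α ^ 2) ≠ 0 := by linarith
    rw [div_div_div_cancel_right₀ h4]
  nlinarith

lemma sinh_uu : Real.sinh (uu (bb α) / 2) = α / Real.sqrt (1 - α ^ 2) := by
  unfold uu
  rw [mul_div_cancel_left₀ _ (by norm_num), Real.sinh_arsinh, tanh_bb h0 h1]

lemma cosh_uu : Real.cosh (uu (bb α) / 2) = 1 / Real.sqrt (1 - α ^ 2) := by
  have hs := sqrt_al_pos h0 h1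
  have hs2 := sqrt_al_sq h0 h1
  have h := al_half h0 h1
  unfold uu
  rw [mul_div_cancel_left₀ _ (by norm_num), Real.cosh_arsinh, tanh_bb h0 h1]
  rw [Real.sqrt_eq_iff_mul_self_eq (by positivity) (by positivity)]
  have hs3 : Real.sqrt (1 - α ^ 2) * Real.sqrt (1 - α ^ 2) = 1 - α ^ 2 := by rw [← sq, hs2]
  rw [div_pow, hs2, div_mul_div_comm, hs3]
  have h5 : (1 - α ^ 2) ≠ 0 := by linarith
  field_simp
  ring

lemma tanh_uu : Real.tanh (uu (bb α) / 2) = α := by
  have hs := sqrt_al_pos h0 h1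
  rw [Real.tanh_eq_sinh_div_cosh, sinh_uu h0 h1, cosh_uu h0 h1]
  field_simp

lemma den_pos : 0 < Real.sqrt (1 - α ^ 2) - α ^ 2 := by
  have hs := sqrt_al_pos h0 h1
  have hs2 := sqrt_al_sq h0 h1
  have h := al_half h0 h1
  nlinarith [sq_nonneg α]

lemma tanh_vv : Real.tanh (vv (bb α) / 2) = betaL α := by
  have hs := sqrt_al_pos h0 h1
  have hs2 := sqrt_al_sq h0 h1
  have hd := den_pos h0 h1
  have h := al_half h0 h1
  have hc := Real.cosh_pos (bb α)
  have e : vv (bb α) / 2 = bb α - uu (bb α) / 2 := by unfold vv; ring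
  rw [e, Real.tanh_eq_sinh_div_cosh, Real.sinh_sub, Real.cosh_sub, sinh_uu h0 h1, cosh_uu h0 h1]
  have ht := tanh_bb h0 h1
  rw [Real.tanh_eq_sinh_div_cosh] at ht
  have hsn : Real.sinh (bb α) = α / Real.sqrt (1 - α ^ 2) * Real.cosh (bb α) := by
    rw [← ht]; field_simp
  rw [hsn]
  generalize Real.cosh (bb α) = C at *
  unfold betaL
  generalize Real.sqrt (1 - α ^ 2) = s at *
  have hd' : s - α ^ 2 ≠ 0 := hd.ne'
  have e1 : α / s * C * (1 / s) - C * (α / s) = (C / s ^ 2) * (α * (1 - s)) := by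
    field_simp
  have e2 : C * (1 / s) - α / s * C * (α / s) = (C / s ^ 2) * (s - α ^ 2) := by
    field_simp
  rw [e1, e2, mul_div_mul_left _ _ (by positivity)]

lemma uu_pos : 0 < uu (bb α) := by
  have hs := sqrt_al_pos h0 h1
  unfold uu
  have : 0 < Real.arsinh (Real.tanh (bb α)) := by
    rw [Real.arsinh_pos_iff, tanh_bb h0 h1]; positivity
  linarith

lemma vv_pos : 0 < vv (bb α) := by
  have hb := bb_pos h0 h1
  have : Real.arsinh (Real.tanh (bb α)) < bb α := by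
    rw [← Real.sinh_lt_sinh, Real.sinh_arsinh, Real.tanh_eq_sinh_div_cosh]
    have h2 := Real.sinh_pos_iff.mpr hb
    have h3 : 1 < Real.cosh (bb α) := by rw [Real.one_lt_cosh]; exact hb.ne'
    rw [div_lt_iff₀ (by linarith)]
    nlinarith
  unfold vv uu
  linarith

lemma vv_le_uu : vv (bb α) ≤ uu (bb α) := by
  have hb := bb_pos h0 h1
  have hs := sqrt_al_pos h0 h1
  have hs2 := sqrt_al_sq h0 h1
  have h := al_half h0 h1
  have hsq := al_sq h0 h1
  have key : bb α ≤ uu (bb α) := by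
    rw [← Real.sinh_le_sinh]
    have e : uu (bb α) = 2 * (uu (bb α) / 2) := by ring
    rw [e, Real.sinh_two_mul, sinh_uu h0 h1, cosh_uu h0 h1]
    have h2 := Real.sinh_pos_iff.mpr hb
    have h3 : Real.sinh (bb α) ^ 2 ≤ (2 * (α / Real.sqrt (1 - α ^ 2)) *
        (1 / Real.sqrt (1 - α ^ 2))) ^ 2 := by
      rw [sinh_bb_sq h0 h1]
      have e2 : 2 * (α / Real.sqrt (1 - α ^ 2)) * (1 / Real.sqrt (1 - α ^ 2)) =
          2 * α / (1 - α ^ 2) := by
        calc 2 * (α / Real.sqrt (1 - α ^ 2)) * (1 / Real.sqrt (1 - α ^ 2))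
            = 2 * α / (Real.sqrt (1 - α ^ 2) ^ 2) := by field_simp
          _ = _ := by rw [hs2]
      rw [e2, div_pow]
      have h3 := Real.sq_sqrt (show (0:ℝ) ≤ 3 by norm_num)
      have h4 := Real.sqrt_nonneg 3
      rw [div_le_div_iff₀ (by linarith) (by nlinarith)]
      -- α² (1-α²)² ≤ 4 α² (1 - 2α²)
      have h5 : (1 - α ^ 2) ^ 2 ≤ 4 * (1 - 2 * α ^ 2) := by
        nlinarith
      nlinarith [sq_nonneg α]
    have h4 : 0 ≤ 2 * (α / Real.sqrt (1 - α ^ 2)) * (1 / Real.sqrt (1 - α ^ 2)) := by positivity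
    nlinarith
  unfold vv
  linarith

lemma hw_ge {y : ℝ} (hy : -Real.sinh (bb α) ≤ y) (hy' : y < Real.sinh (bb α)) :
    uu (bb α) ≤ 2 * hw (Real.sinh (bb α)) y ∧ hw (Real.sinh (bb α)) y ≤ bb α := by
  have hb := bb_pos h0 h1
  have h2 := Real.sinh_pos_iff.mpr hb
  have hsq := sqrt_pos' y
  constructor
  · unfold uu hw
    have : Real.arsinh (Real.tanh (bb α)) ≤
        Real.arsinh (Real.sinh (bb α) / Real.sqrt (1 + y ^ 2)) := by
      rw [Real.arsinh_le_arsinh, Real.tanh_eq_sinh_div_cosh]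
      apply div_le_div_of_nonneg_left h2.le hsq
      rw [Real.sqrt_le_left (Real.cosh_pos _).le]
      have := Real.cosh_sq (bb α)
      rw [this]
      nlinarith
    linarith
  · unfold hw
    have : Real.arsinh (Real.sinh (bb α) / Real.sqrt (1 + y ^ 2)) ≤
        Real.arsinh (Real.sinh (bb α)) := by
      rw [Real.arsinh_le_arsinh]
      apply div_le_self h2.le
      rw [Real.le_sqrt (by norm_num) (by positivity)]
      nlinarith [sq_nonneg y]
    rwa [Real.arsinh_sinh] at this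

lemma legal : Legal (Real.sinh (bb α)) (uu (bb α)) (vv (bb α)) := by
  refine ⟨Real.sinh_pos_iff.mpr (bb_pos h0 h1), uu_pos h0 h1, vv_pos h0 h1, ?_, ?_, ?_⟩
  · intro y hy hy'
    exact (hw_ge h0 h1 hy hy').1
  · intro y hy hy'
    have := (hw_ge h0 h1 hy hy').1
    have := vv_le_uu h0 h1
    linarith
  · intro y hy hy'
    have := (hw_ge h0 h1 hy hy').2
    unfold vv
    linarith

lemma mem_barrel_iff {z : ℂ} : z ∈ barrel α ↔ nn z < 1 ∧ pt z ∈ Q (Real.sinh (bb α)) := by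
  have hb := bb_pos h0 h1
  have h2 := Real.sinh_pos_iff.mpr hb
  unfold barrel
  simp only [Set.mem_ofPred_eq]
  constructor
  · rintro ⟨g1, g2, g3, g4, g5⟩
    have hz := nn_lt g1
    refine ⟨hz, ?_⟩
    rw [distReal_eq, distRe_eq hz, ← Real.sinh_le_sinh, Real.sinh_arsinh] at g2
    rw [distImag_eq, distIm_eq hz, ← Real.sinh_le_sinh, Real.sinh_arsinh] at g3
    rw [delta_eq, dl_eq hz] at g4
    rw [distReal_eq, distRe_eq hz] at g5
    rw [abs_le] at g2 g3
    refine ⟨g3.1, ?_, g2.1, ?_⟩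
    · apply lt_of_le_of_ne g3.2
      intro h
      apply g4
      rw [h, Real.arsinh_sinh]
    · apply lt_of_le_of_ne g2.2
      intro h
      apply g5
      refine ⟨?_, ?_⟩
      · rw [← pt_snd_pos hz, h]; exact h2
      · rw [h, abs_of_pos h2, Real.arsinh_sinh]
  · rintro ⟨hz, g1, g2, g3, g4⟩
    refine ⟨norm_lt hz, ?_, ?_, ?_, ?_⟩
    · rw [distReal_eq, distRe_eq hz, ← Real.sinh_le_sinh, Real.sinh_arsinh, abs_le]
      exact ⟨g3, g4.le⟩
    · rw [distImag_eq, distIm_eq hz, ← Real.sinh_le_sinh, Real.sinh_arsinh, abs_le]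
      exact ⟨g1, g2.le⟩
    · rw [delta_eq, dl_eq hz]
      intro h
      have := congrArg Real.sinh h
      rw [Real.sinh_arsinh] at this
      linarith
    · rw [distReal_eq, distRe_eq hz]
      rintro ⟨h3, h4⟩
      have := congrArg Real.sinh h4
      rw [Real.sinh_arsinh] at this
      rw [← pt_snd_pos hz] at h3
      rw [abs_of_pos h3] at this
      linarith

end params

lemma tau_neg_tau (t : ℝ) {z : ℂ} (hz : nn z < 1) :
    tau ((Real.tanh (-t / 2) : ℝ) : ℂ) (tau ((Real.tanh (t / 2) : ℝ) : ℂ) z) = z := by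
  have h1 : nn (tau ((Real.tanh (t / 2) : ℝ) : ℂ) z) < 1 := nn_tau_lt (tanh_abs_lt _) hz
  have h2 : nn (tau ((Real.tanh (-t / 2) : ℝ) : ℂ) (tau ((Real.tanh (t / 2) : ℝ) : ℂ) z)) < 1 :=
    nn_tau_lt (tanh_abs_lt _) h1
  rw [← dk_pt h2, tau_eq, pt_tau (-t) h1, tau_eq, pt_tau t hz, mX_mX, add_neg_cancel, mX_zero,
    dk_pt hz]

lemma mem_HH (t s : ℝ) {z : ℂ} (hz : nn z < 1) :
    z ∈ HH (Real.tanh (-t / 2)) s ↔ Real.arsinh (mX t (pt z)).1 < s := by
  unfold HH
  constructor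
  · rintro ⟨w, ⟨hw1, hw2⟩, rfl⟩
    have hw := nn_lt hw1
    rw [tau_eq, pt_tau (-t) hw, mX_mX, neg_add_cancel, mX_zero]
    rwa [delta_eq, dl_eq hw] at hw2
  · intro h
    have hlt : nn (tau ((Real.tanh (t / 2) : ℝ) : ℂ) z) < 1 := nn_tau_lt (tanh_abs_lt _) hz
    refine ⟨tau ((Real.tanh (t / 2) : ℝ) : ℂ) z, ⟨norm_lt hlt, ?_⟩, tau_neg_tau t hz⟩
    rw [delta_eq, dl_eq hlt, tau_eq, pt_tau t hz]
    exact h

lemma mX_fst_lt (c t : ℝ) (p : ℝ × ℝ) : (mX t p).1 < c ↔ sX p + t < hw c p.2 := by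
  have h := sqrt_pos' p.2
  unfold mX hw
  simp only
  rw [← lt_div_iff₀' h, ← Real.sinh_lt_sinh (y := Real.arsinh _), Real.sinh_arsinh]
  rfl

lemma arsinh_lt (x b : ℝ) : Real.arsinh x < b ↔ x < Real.sinh b := by
  rw [← Real.sinh_lt_sinh, Real.sinh_arsinh]

section corr

variable {α : ℝ} (h0 : 0 < α) (h1 : α < Real.sqrt (2 * Real.sqrt 3 - 3))

include h0 h1

lemma mem_quad {z : ℂ} (hz : z ∈ barrel α) : z ∈ quadrangle α (betaL α) ↔
    sX (pt z) + vv (bb α) < hw (Real.sinh (bb α)) (pt z).2 := by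
  obtain ⟨hn, _⟩ := (mem_barrel_iff h0 h1).mp hz
  unfold quadrangle
  have e : -betaL α = Real.tanh (-(vv (bb α)) / 2) := by
    rw [neg_div, Real.tanh_neg, tanh_vv h0 h1]
  rw [e, Set.mem_inter_iff, mem_HH _ _ hn, arsinh_lt, mX_fst_lt]
  exact ⟨fun h => h.2, fun h => ⟨hz, h⟩⟩

lemma mem_lens {z : ℂ} (hz : z ∈ barrel α) : z ∈ lens α ↔
    -hw (Real.sinh (bb α)) (pt z).2 ≤ sX (pt z) - uu (bb α) := by
  obtain ⟨hn, _⟩ := (mem_barrel_iff h0 h1).mp hz
  unfold lens
  have e : α = Real.tanh (-(-(uu (bb α))) / 2) := by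
    rw [neg_neg, tanh_uu h0 h1]
  have e2 : HH α (-bb α) = HH (Real.tanh (-(-(uu (bb α))) / 2)) (-bb α) := by rw [← e]
  rw [Set.mem_sdiff, e2, mem_HH _ _ hn, arsinh_lt, mX_fst_lt, Real.sinh_neg]
  have e3 : hw (-Real.sinh (bb α)) (pt z).2 = - hw (Real.sinh (bb α)) (pt z).2 := by
    unfold hw; rw [neg_div, Real.arsinh_neg]
  rw [e3, not_lt, ← sub_eq_add_neg]
  exact ⟨fun h => h.2, fun h => ⟨hz, h⟩⟩

lemma pt_phi {z : ℂ} (hz : z ∈ barrel α) : nn (phi α (betaL α) z) < 1 ∧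
    pt (phi α (betaL α) z) = ph (Real.sinh (bb α)) (uu (bb α)) (vv (bb α)) (pt z) := by
  obtain ⟨hn, _⟩ := (mem_barrel_iff h0 h1).mp hz
  have m1 := mem_quad h0 h1 hz
  have m2 := mem_lens h0 h1 hz
  have ea : ((-α : ℝ) : ℂ) = ((Real.tanh (-(uu (bb α)) / 2) : ℝ) : ℂ) := by
    rw [neg_div, Real.tanh_neg, tanh_uu h0 h1]
  have eb : ((betaL α : ℝ) : ℂ) = ((Real.tanh (vv (bb α) / 2) : ℝ) : ℂ) := by
    rw [tanh_vv h0 h1]
  unfold phi ph dsp am
  rw [ea, eb]
  have q1 : nn (tau ((Real.tanh (vv (bb α) / 2) : ℝ) : ℂ) z) < 1 := nn_tau_lt (tanh_abs_lt _) hn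
  by_cases c1 : z ∈ quadrangle α (betaL α)
  · rw [if_pos c1, if_pos (m1.mp c1)]
    refine ⟨q1, ?_⟩
    rw [tau_eq, pt_tau _ hn]
    simp
  · rw [if_neg c1, if_neg (fun h => c1 (m1.mpr h))]
    by_cases c2 : z ∈ lens α
    · rw [if_pos c2, if_pos (m2.mp c2)]
      refine ⟨nn_tau_lt (tanh_abs_lt _) hn, ?_⟩
      rw [tau_eq, pt_tau _ hn]
      simp
    · rw [if_neg c2, if_neg (fun h => c2 (m2.mpr h))]
      refine ⟨nn_tau_lt (tanh_abs_lt _) q1, ?_⟩
      rw [tau_eq, pt_tau _ q1, tau_eq, pt_tau _ hn, mX_mX]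
      simp

/-- coordinates on the barrel -/
def eB : barrel α ≃ Q (Real.sinh (bb α)) where
  toFun z := ⟨pt z.1, ((mem_barrel_iff h0 h1).mp z.2).2⟩
  invFun p := ⟨dk p.1, (mem_barrel_iff h0 h1).mpr ⟨nn_dk_lt _, by rw [pt_dk]; exact p.2⟩⟩
  left_inv z := Subtype.ext (dk_pt ((mem_barrel_iff h0 h1).mp z.2).1)
  right_inv p := Subtype.ext (pt_dk _)

theorem good_of_generic (hg : Generic (uu (bb α)) (vv (bb α))) : Good α := by
  have hL := legal h0 h1
  set e := eB h0 h1 with he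
  set F : Bool → Equiv.Perm (barrel α) := fun b => (e.trans (gen hL b)).trans e.symm with hF
  have hfin : ∀ w : FreeGroup Bool, w ≠ 1 → {z : barrel α | FreeGroup.lift F w z = z}.Finite := by
    intro w hw
    have h := finite_fix hL hg w hw
    apply Set.Finite.of_finite_image (f := e) _ e.injective.injOn
    apply h.subset
    rintro _ ⟨z, hz, rfl⟩
    simp only [Set.mem_ofPred_eq] at hz ⊢
    rw [hF, lift_conj] at hz
    have := congrArg e hz
    rwa [Equiv.apply_symm_apply] at this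
  have hinf : Infinite (barrel α) := by
    have := Q_infinite hL.hc
    exact Infinite.of_injective e.symm e.symm.injective
  set ε : Fin 2 → Bool := ![true, false] with hε
  have hlift : ∀ w : FreeGroup (Fin 2), FreeGroup.lift ![F true, F false] w =
      FreeGroup.lift F (FreeGroup.map ε w) := by
    intro w
    have : (FreeGroup.lift ![F true, F false] : FreeGroup (Fin 2) →* Equiv.Perm (barrel α)) =
        (FreeGroup.lift F).comp (FreeGroup.map ε) := by
      ext i : 1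
      fin_cases i <;> simp [hε]
    rw [this]; rfl
  have heinj : Function.Injective ε := by
    intro i j hij
    fin_cases i <;> fin_cases j <;> simp [hε] at hij ⊢
  have hmap : Function.Injective (FreeGroup.map ε) := FreeGroup.map_injective heinj
  have hkey : ∀ w : FreeGroup (Fin 2), w ≠ 1 →
      {z : barrel α | FreeGroup.lift ![F true, F false] w z = z}.Finite := by
    intro w hw
    rw [hlift]
    apply hfin
    intro h1
    apply hw
    apply hmap
    rw [h1, map_one]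
  refine ⟨?_, F true, F false, ?_, ?_, ?_, ?_⟩
  · rw [Set.disjoint_left]
    intro z hz1 hz2
    have hb : z ∈ barrel α := hz1.1
    have m1 := (mem_quad h0 h1 hb).mp hz1
    have m2 := (mem_lens h0 h1 hb).mp hz2
    obtain ⟨_, _, _, g3, g4⟩ := (mem_barrel_iff h0 h1).mp hb
    have := hL.huv (pt z).2 g3 g4
    linarith
  · intro z
    have hz := pt_phi h0 h1 z.2
    change dk (ph (Real.sinh (bb α)) (uu (bb α)) (vv (bb α)) (pt z.1)) = _
    rw [← hz.2, dk_pt hz.1]
  · intro z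
    have hs : sigma z ∈ barrel α := by
      have h := (mem_barrel_iff h0 h1).mp z.2
      rw [mem_barrel_iff h0 h1, sigma_eq, nn_sg, pt_sg]
      exact ⟨h.1, swap_mem h.2⟩
    have hz := pt_phi h0 h1 hs
    change dk (ph (Real.sinh (bb α)) (uu (bb α)) (vv (bb α)) (pt z.1).swap).swap = _
    have e1 : (pt z.1).swap = pt (sigma z) := by rw [sigma_eq, pt_sg]
    rw [e1, ← hz.2]
    have e2 : (pt (phi α (betaL α) (sigma z))).swap = pt (psi α (betaL α) z) := by
      unfold psi; rw [sigma_eq (phi α (betaL α) (sigma z)), pt_sg]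
    rw [e2, dk_pt]
    unfold psi
    rw [sigma_eq (phi α (betaL α) (sigma z)), nn_sg]
    exact hz.1
  · rw [injective_iff_map_eq_one]
    intro w hw
    by_contra hw'
    have h := hkey w hw'
    rw [hw] at h
    simp only [Equiv.Perm.coe_one, id_eq] at h
    exact Set.infinite_univ (α := barrel α) (by simpa using h)
  · intro g hg1 hg2
    have hrange : Subgroup.closure {F true, F false} ≤
        (FreeGroup.lift ![F true, F false] : FreeGroup (Fin 2) →* Equiv.Perm (barrel α)).range := by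
      rw [Subgroup.closure_le]
      rintro k (rfl | rfl)
      · exact ⟨FreeGroup.of 0, by simp⟩
      · exact ⟨FreeGroup.of 1, by simp⟩
    obtain ⟨w, rfl⟩ := hrange hg1
    apply hkey w
    intro h
    apply hg2
    rw [h, map_one]

end corr

/-- **MP_af08fa_gt, Q1: yes.**  For all but countably many `α ∈ (0, √(2√3 - 3))` the three
properties hold at the lower edge `β = β_α`; in particular there is such an `α`. -/
theorem result : {α : ℝ | (0 < α ∧ α < Real.sqrt (2 * Real.sqrt 3 - 3)) ∧ ¬ Good α}.Countable ∧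
    ∃ α : ℝ, 0 < α ∧ α < Real.sqrt (2 * Real.sqrt 3 - 3) ∧ Good α := by
  have hc : {α : ℝ | (0 < α ∧ α < Real.sqrt (2 * Real.sqrt 3 - 3)) ∧ ¬ Good α}.Countable := by
    apply Set.Countable.mono _ (generic_second.image (fun b => Real.tanh (uu b / 2)))
    rintro α ⟨⟨h0, h1⟩, h⟩
    refine ⟨bb α, ?_, tanh_uu h0 h1⟩
    intro hg
    exact h (good_of_generic h0 h1 hg)
  refine ⟨hc, ?_⟩
  have hpos : 0 < Real.sqrt (2 * Real.sqrt 3 - 3) := by
    apply Real.sqrt_pos.mpr
    have := Real.sq_sqrt (show (0:ℝ) ≤ 3 by norm_num)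
    have := Real.sqrt_nonneg 3
    nlinarith
  obtain ⟨α, h0, h1, h2⟩ := exists_good hc hpos
  refine ⟨α, h0, h1, ?_⟩
  by_contra h
  exact h2 ⟨⟨h0, h1⟩, h⟩

end

end Pool.Agent.Results.MP_af08fa_gt.LowerEdgeGood
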